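import Mathlib
import Pool.Agent.H17.PatDefs

set_option autoImplicit false

namespace Pool.Agent.Results.MP_6ec7bd_co.Counter

open Pool.Agent.H17.Pat List in
theorem result : ∃ (v t u x y : List Bool) (i j d A : ℕ),
    2 ≤ v.length ∧ v ≠ [true, true] ∧ v = replicate i false ++ true :: t ∧
    v = u ++ true :: replicate j false ∧
    x.length = v.length - 1 ∧ y.length = v.length - 1 ∧
    Odd (occ (replicate i false ++ x) v + occ (y ++ x) v + occ (y ++ replicate j false) v) ∧
    (∀ x' y' : List Bool, x'.length = v.length - 1 → y'.length = v.length - 1 →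
      Odd (occ (replicate i false ++ x') v + occ (y' ++ x') v + occ (y' ++ replicate j false) v) →
      x < x' ∨ (x = x' ∧ y ≤ y')) ∧
    2 ^ (2 * v.length + 1) ≤ d ∧
    IsLeast {l | 1 ≤ l ∧ Odd (occ (replicate i false ++ bin (l * d)) v)} A ∧
    (val x : ℚ) / 2 ^ (v.length - 1 + j) * d +
      (val y - 2 ^ j * ((val x : ℚ) / 2 ^ (v.length - 1 + j))) < A := by
  refine ⟨[true, false, false, false, false], [false, false, false, false], [],
    [false, false, false, true], [false, false, false, true], 0, 4, 2185, 15, by decide, by decide,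
    rfl, rfl, rfl, rfl, by decide +kernel, ?_, by decide, ⟨⟨by decide, by decide +kernel⟩, ?_⟩, ?_⟩
  · intro x' y' hx hy
    match x', y', hx, hy with
    | [a, b, c, d], [e, f, g, h], _, _ => revert a b c d e f g h; decide +kernel
  · rintro l ⟨h1, h2⟩
    by_contra h
    have : ∀ l < 15, 1 ≤ l → ¬ Odd (occ (replicate 0 false ++ bin (l * 2185))
      [true, false, false, false, false]) := by decide +kernel
    exact this l (by omega) h1 h2
  · have : val [false, false, false, true] = 1 := by decide +kernel
    rw [this]; norm_num

end Pool.Agent.Results.MP_6ec7bd_co.Counter
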